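import Pool.Agent.Helper36.RI.Goals

/-!
# Project RF, existence part: packet NTX
-/

set_option autoImplicit false

open Finset Pool.Agent.Helper36.RI Pool.Agent.Helper36.RS Pool.Agent.Helper73.RF
open Pool.Agent.Helper47.RF hiding eps

namespace Pool.Agent.Helper73.RI

section

variable {T : ℝ} (t : ℝ)

/-- the relation between the bundle algebra and `XS` at time `t` -/
def rel (f : (baC T).B) (g : XS) : Prop := ∀ x : HH, x ≠ 0 → at1 f t x = g.1 x

variable {t}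

theorem mem1 (ht : 0 < t ∧ t < T) {x : HH} (hx : x ≠ 0) : ((x, (1 : HH), t) : W) ∈ Om T :=
  ⟨hx, one_ne_zero, ht.1, ht.2⟩

theorem at1_val (ht : 0 < t ∧ t < T) (f : (baC T).B) {x : HH} (hx : x ≠ 0) :
    at1 f t x = (f : BB T).1 ⟨_, mem1 ht hx⟩ := exT_of_mem _ (mem1 ht hx)

theorem rel_emb {T : ℝ} {t : ℝ} (ht : 0 < t ∧ t < T) {A : ℝ → XS} (hA : JS T (fun t => (A t).1)) :
    rel t (emb _ hA) (A t) := by
  intro x hx
  rw [at1_val ht _ hx]; rfl

theorem rel_add (ht : 0 < t ∧ t < T) {f g : (baC T).B} {f' g' : XS} (hf : rel t f f')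
    (hg : rel t g g') : rel t (f + g) (f' + g') := by
  intro x hx
  have h1 := hf x hx
  have h2 := hg x hx
  rw [at1_val ht _ hx] at h1 h2 ⊢
  show (f : BB T).1 ⟨_, mem1 ht hx⟩ + (g : BB T).1 ⟨_, mem1 ht hx⟩ = f'.1 x + g'.1 x
  rw [h1, h2]

theorem rel_sub (ht : 0 < t ∧ t < T) {f g : (baC T).B} {f' g' : XS} (hf : rel t f f')
    (hg : rel t g g') : rel t (f - g) (f' - g') := by
  intro x hx
  have h1 := hf x hx
  have h2 := hg x hx
  rw [at1_val ht _ hx] at h1 h2 ⊢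
  show (f : BB T).1 ⟨_, mem1 ht hx⟩ - (g : BB T).1 ⟨_, mem1 ht hx⟩ = f'.1 x - g'.1 x
  rw [h1, h2]

theorem rel_mul (ht : 0 < t ∧ t < T) {f g : (baC T).B} {f' g' : XS} (hf : rel t f f')
    (hg : rel t g g') : rel t (f * g) (f' * g') := by
  intro x hx
  have h1 := hf x hx
  have h2 := hg x hx
  rw [at1_val ht _ hx] at h1 h2 ⊢
  show (f : BB T).1 ⟨_, mem1 ht hx⟩ * (g : BB T).1 ⟨_, mem1 ht hx⟩ = f'.1 x * g'.1 x
  rw [h1, h2]

theorem rel_smul (ht : 0 < t ∧ t < T) (c : ℝ) {f : (baC T).B} {f' : XS} (hf : rel t f f') :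
    rel t (c • f) (c • f') := by
  intro x hx
  have h1 := hf x hx
  rw [at1_val ht _ hx] at h1 ⊢
  show c * (f : BB T).1 ⟨_, mem1 ht hx⟩ = c * f'.1 x
  rw [h1]

theorem rel_zero (ht : 0 < t ∧ t < T) : rel t (0 : (baC T).B) (0 : XS) := by
  intro x hx
  rw [at1_val ht _ hx]; rfl

theorem rel_sum (ht : 0 < t ∧ t < T) {ι : Type} (s : Finset ι) {f : ι → (baC T).B} {g : ι → XS}
    (h : ∀ i ∈ s, rel t (f i) (g i)) : rel t (∑ i ∈ s, f i) (∑ i ∈ s, g i) := by
  classical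
  induction s using Finset.induction_on with
  | empty => simpa using rel_zero ht
  | insert a s ha ih =>
    rw [Finset.sum_insert ha, Finset.sum_insert ha]
    exact rel_add ht (h a (Finset.mem_insert_self a s))
      (ih fun i hi => h i (Finset.mem_insert_of_mem hi))

theorem rel_pow_two (ht : 0 < t ∧ t < T) {f : (baC T).B} {f' : XS} (hf : rel t f f') :
    rel t (f ^ 2) (f' ^ 2) := by
  rw [pow_two, pow_two]; exact rel_mul ht hf hf

theorem rel_ite (ht : 0 < t ∧ t < T) {p : Prop} [Decidable p] {f : (baC T).B} {f' : XS}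
    (hf : rel t f f') : rel t (if p then f else 0) (if p then f' else 0) := by
  split_ifs
  · exact hf
  · exact rel_zero ht

theorem rel_E (h6 : D6Stmt) (ht : 0 < t ∧ t < T) {f : (baC T).B} {f' : XS} (hf : rel t f f')
    (i : Fin 3) : rel t ((baC T).E i f) (Ed i f') := by
  intro x hx
  obtain ⟨-, hD, -⟩ := h6 T
  obtain ⟨-, -, hE, -⟩ := hD f
  rw [hE i t x ht.1 ht.2 hx, Ed_apply]
  unfold Pool.Agent.Helper47.RF.E
  have : at1 f t =ᶠ[nhds x] f'.1 := by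
    filter_upwards [isOpen_ne.mem_nhds hx] with y hy
    exact hf y hy
  rw [this.fderiv_eq]

variable {A θ P : Fin 3 → Fin 3 → (baC T).B} {A' θ' P' : Fin 3 → Fin 3 → XS}

theorem rel_Fd (h6 : D6Stmt) (ht : 0 < t ∧ t < T) (hA : ∀ a i, rel t (A a i) (A' a i))
    {f : (baC T).B} {f' : XS} (hf : rel t f f') (a : Fin 3) :
    rel t (FR.Fd (baC T).E A a f) (FR.Fd Ed A' a f') :=
  rel_sum ht _ fun i _ => rel_mul ht (hA a i) (rel_E h6 ht hf i)

theorem rel_C (h6 : D6Stmt) (ht : 0 < t ∧ t < T) (hA : ∀ a i, rel t (A a i) (A' a i))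
    (hθ : ∀ i a, rel t (θ i a) (θ' i a)) (a b c : Fin 3) :
    rel t (FR.C (baC T).E A θ a b c) (FR.C Ed A' θ' a b c) := by
  unfold FR.C
  refine rel_sum ht _ fun j _ => rel_mul ht (rel_add ht (rel_sub ht (rel_Fd h6 ht hA (hA b j) a)
    (rel_Fd h6 ht hA (hA a j) b)) (rel_smul ht _ ?_)) (hθ j c)
  exact rel_sum ht _ fun i _ => rel_sum ht _ fun k _ =>
    rel_smul ht _ (rel_mul ht (hA a i) (hA b k))

theorem rel_Gam (h6 : D6Stmt) (ht : 0 < t ∧ t < T) (hA : ∀ a i, rel t (A a i) (A' a i))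
    (hθ : ∀ i a, rel t (θ i a) (θ' i a)) (a b c : Fin 3) :
    rel t (FR.Gam (baC T).E A θ a b c) (FR.Gam Ed A' θ' a b c) := by
  unfold FR.Gam
  exact rel_smul ht _ (rel_add ht (rel_sub ht (rel_C h6 ht hA hθ a b c)
    (rel_C h6 ht hA hθ b c a)) (rel_C h6 ht hA hθ c a b))

theorem rel_om (h6 : D6Stmt) (ht : 0 < t ∧ t < T) (hA : ∀ a i, rel t (A a i) (A' a i))
    (hθ : ∀ i a, rel t (θ i a) (θ' i a)) (a k : Fin 3) :
    rel t (FR.om (baC T).E A θ a k) (FR.om Ed A' θ' a k) := by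
  unfold FR.om
  exact rel_smul ht _ (rel_sum ht _ fun b _ => rel_sum ht _ fun c _ =>
    rel_smul ht _ (rel_Gam h6 ht hA hθ a b c))

theorem rel_Om (h6 : D6Stmt) (ht : 0 < t ∧ t < T) (hA : ∀ a i, rel t (A a i) (A' a i))
    (hθ : ∀ i a, rel t (θ i a) (θ' i a)) (c d k : Fin 3) :
    rel t (FR.Om (baC T).E A θ c d k) (FR.Om Ed A' θ' c d k) := by
  have ho := rel_om h6 ht hA hθ
  unfold FR.Om
  refine rel_sub ht (rel_add ht (rel_sub ht (rel_Fd h6 ht hA (ho d k) c)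
    (rel_Fd h6 ht hA (ho c k) d)) ?_) ?_
  · exact rel_sum ht _ fun l _ => rel_sum ht _ fun m _ =>
      rel_smul ht _ (rel_mul ht (ho c l) (ho d m))
  · exact rel_sum ht _ fun e _ => rel_mul ht (rel_C h6 ht hA hθ c d e) (ho e k)

theorem rel_N (h6 : D6Stmt) (ht : 0 < t ∧ t < T) (hA : ∀ a i, rel t (A a i) (A' a i))
    (hθ : ∀ i a, rel t (θ i a) (θ' i a)) (l k : Fin 3) :
    rel t (FR.N (baC T).E A θ l k) (FR.N Ed A' θ' l k) := by
  unfold FR.N
  exact rel_smul ht _ (rel_sum ht _ fun c _ => rel_sum ht _ fun d _ =>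
    rel_smul ht _ (rel_Om h6 ht hA hθ c d k))

theorem rel_nab (h6 : D6Stmt) (ht : 0 < t ∧ t < T) (hA : ∀ a i, rel t (A a i) (A' a i))
    (hθ : ∀ i a, rel t (θ i a) (θ' i a)) (hP : ∀ a b, rel t (P a b) (P' a b)) (c a b : Fin 3) :
    rel t (nab (baC T).E A θ P c a b) (nab Ed A' θ' P' c a b) := by
  have hG := rel_Gam h6 ht hA hθ
  unfold nab
  exact rel_sub ht (rel_sub ht (rel_Fd h6 ht hA (hP a b) c)
    (rel_sum ht _ fun d _ => rel_mul ht (hG c a d) (hP d b)))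
    (rel_sum ht _ fun d _ => rel_mul ht (hG c b d) (hP a d))

theorem rel_lapF (h6 : D6Stmt) (ht : 0 < t ∧ t < T) (hA : ∀ a i, rel t (A a i) (A' a i))
    (hθ : ∀ i a, rel t (θ i a) (θ' i a)) (hP : ∀ a b, rel t (P a b) (P' a b)) (a b : Fin 3) :
    rel t (lapF (baC T).E A θ P a b) (lapF Ed A' θ' P' a b) := by
  have hG := rel_Gam h6 ht hA hθ
  have hn := rel_nab h6 ht hA hθ hP
  unfold lapF
  refine rel_sum ht _ fun c _ => rel_sub ht (rel_sub ht (rel_sub ht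
    (rel_Fd h6 ht hA (hn c a b) c) ?_) ?_) ?_
  · exact rel_sum ht _ fun d _ => rel_mul ht (hG c c d) (hn d a b)
  · exact rel_sum ht _ fun d _ => rel_mul ht (hG c a d) (hn c d b)
  · exact rel_sum ht _ fun d _ => rel_mul ht (hG c b d) (hn c a d)

theorem rel_trP (ht : 0 < t ∧ t < T) (hP : ∀ a b, rel t (P a b) (P' a b)) :
    rel t (trP P) (trP P') := by
  unfold trP
  exact rel_sum ht _ fun c _ => hP c c

theorem rel_QP (ht : 0 < t ∧ t < T) (hP : ∀ a b, rel t (P a b) (P' a b)) (a b : Fin 3) :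
    rel t (QP P a b) (QP P' a b) := by
  have htr := rel_trP ht hP
  unfold QP
  refine rel_add ht (rel_sub ht (rel_smul ht _ ?_) (rel_smul ht _ (rel_mul ht htr (hP a b)))) ?_
  · exact rel_sum ht _ fun c _ => rel_mul ht (hP a c) (hP c b)
  · refine rel_ite ht (rel_sub ht (rel_pow_two ht htr) ?_)
    exact rel_sum ht _ fun c _ => rel_sum ht _ fun d _ => rel_pow_two ht (hP c d)

end

theorem ntx : G_NTX := by
  intro h6 T A θ P hA hθ hP t x ht1 ht2 hx
  have ht : 0 < t ∧ t < T := ⟨ht1, ht2⟩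
  have rA : ∀ a i, rel t (emb (T := T) _ (hA a i)) (A t a i) := fun a i =>
    rel_emb (A := fun t => A t a i) ht (hA a i)
  have rt : ∀ i a, rel t (emb (T := T) _ (hθ i a)) (θ t i a) := fun i a =>
    rel_emb (A := fun t => θ t i a) ht (hθ i a)
  have rP : ∀ a b, rel t (emb (T := T) _ (hP a b)) (P t a b) := fun a b =>
    rel_emb (A := fun t => P t a b) ht (hP a b)
  refine ⟨fun a k => rel_om h6 ht rA rt a k x hx, fun a b c => rel_Gam h6 ht rA rt a b c x hx,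
    fun l k => rel_N h6 ht rA rt l k x hx, fun c a b => rel_nab h6 ht rA rt rP c a b x hx,
    fun a b => ?_⟩
  exact (rel_add ht (rel_lapF h6 ht rA rt rP a b) (rel_QP ht rP a b)) x hx

end Pool.Agent.Helper73.RI
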